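import Pool.Agent.Y377.IL.Stm

/-! Derivations from additive functions of the eigenvalues. -/

set_option autoImplicit false

namespace Pool.Agent.Y407.IL

open Pool.Agent.Y377.IL

section

variable {K : Type} [Field K] [Algebra ℂ K] (δ : Derivation ℂ K K)

lemma mem_gen_of_sub {f : Module.End ℂ K} {μ : ℂ} {x : K}
    (h : (f - μ • 1) x ∈ f.maxGenEigenspace μ) : x ∈ f.maxGenEigenspace μ := by
  rw [Module.End.mem_maxGenEigenspace] at h ⊢
  obtain ⟨k, hk⟩ := h
  refine ⟨k + 1, ?_⟩
  rw [pow_succ, Module.End.mul_apply]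
  exact hk

lemma en_mul (μ ν : ℂ) (a b : K) : (en δ - (μ + ν) • 1) (a * b) =
    (en δ - μ • 1) a * b + a * (en δ - ν • 1) b := by
  simp only [LinearMap.sub_apply, LinearMap.smul_apply, Module.End.one_apply]
  have h1 : ∀ x, en δ x = δ x := fun _ => rfl
  rw [h1, h1, h1, Derivation.leibniz]
  simp only [smul_eq_mul, Algebra.smul_def, map_add]
  ring

lemma gen_mul (μ ν : ℂ) (s : ℕ) : ∀ k l : ℕ, k + l ≤ s → ∀ a b : K,
    ((en δ - μ • 1) ^ k) a = 0 → ((en δ - ν • 1) ^ l) b = 0 →
    a * b ∈ (en δ).maxGenEigenspace (μ + ν) := by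
  induction s with
  | zero =>
    intro k l hkl a b ha _
    have : k = 0 := by omega
    rw [this, pow_zero, Module.End.one_apply] at ha
    rw [ha, zero_mul]
    exact Submodule.zero_mem _
  | succ s ih =>
    intro k l hkl a b ha hb
    cases k with
    | zero =>
      rw [pow_zero, Module.End.one_apply] at ha
      rw [ha, zero_mul]
      exact Submodule.zero_mem _
    | succ k =>
      cases l with
      | zero =>
        rw [pow_zero, Module.End.one_apply] at hb
        rw [hb, mul_zero]
        exact Submodule.zero_mem _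
      | succ l =>
        apply mem_gen_of_sub
        rw [en_mul]
        apply Submodule.add_mem
        · refine ih k (l + 1) (by omega) _ _ ?_ hb
          rw [pow_succ, Module.End.mul_apply] at ha
          exact ha
        · refine ih (k + 1) l (by omega) _ _ ha ?_
          rw [pow_succ, Module.End.mul_apply] at hb
          exact hb

lemma gen_mul_mem {μ ν : ℂ} {a b : K} (ha : a ∈ (en δ).maxGenEigenspace μ)
    (hb : b ∈ (en δ).maxGenEigenspace ν) : a * b ∈ (en δ).maxGenEigenspace (μ + ν) := by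
  rw [Module.End.mem_maxGenEigenspace] at ha hb
  obtain ⟨k, hk⟩ := ha
  obtain ⟨l, hl⟩ := hb
  exact gen_mul δ μ ν (k + l) k l le_rfl a b hk hl

/-- the pieces -/
noncomputable abbrev pc (B : Subalgebra ℂ K) (μ : ℂ) : Submodule ℂ K :=
  Subalgebra.toSubmodule B ⊓ (en δ).maxGenEigenspace μ

lemma pc_indep (B : Subalgebra ℂ K) : iSupIndep (pc δ B) :=
  (Module.End.independent_maxGenEigenspace (en δ)).mono fun _ => inf_le_right

end

theorem t_GR : Pool.Agent.Y377.IL.S_GR := by
  classical
  intro K _ _ δ B _ hB φ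
  set p := pc δ B with hp
  -- inclusion of the pieces into `B`
  let iB : ∀ μ : ℂ, p μ →ₗ[ℂ] B := fun μ =>
    { toFun := fun x => ⟨x.1, x.2.1⟩
      map_add' := fun _ _ => rfl
      map_smul' := fun _ _ => rfl }
  let E0 : (Π₀ μ, p μ) →ₗ[ℂ] B := DFinsupp.lsum ℂ iB
  have hcomp : (Subalgebra.toSubmodule B).subtype ∘ₗ E0 =
      DFinsupp.lsum ℂ (fun μ => (p μ).subtype) := by
    apply DFinsupp.lhom_ext
    intro μ x
    simp only [E0, LinearMap.comp_apply, DFinsupp.lsum_single]
    rfl
  have hinj : Function.Injective E0 := by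
    have h1 := (pc_indep δ B).dfinsupp_lsum_injective
    have h2 : Function.Injective ((Subalgebra.toSubmodule B).subtype ∘ₗ E0) := by
      rw [hcomp]
      exact h1
    rw [LinearMap.coe_comp] at h2
    exact Function.Injective.of_comp h2
  have hsurj : Function.Surjective E0 := by
    intro b
    have h1 := hB b.1 b.2
    rw [Submodule.iSup_eq_range_dfinsupp_lsum] at h1
    obtain ⟨w, hw⟩ := h1
    refine ⟨w, Subtype.ext ?_⟩
    rw [← hw]
    exact LinearMap.congr_fun hcomp w
  let E : (Π₀ μ, p μ) ≃ₗ[ℂ] B := LinearEquiv.ofBijective E0 ⟨hinj, hsurj⟩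
  let T0 : (Π₀ μ, p μ) →ₗ[ℂ] B := DFinsupp.lsum ℂ (fun μ => φ μ • iB μ)
  let T : B →ₗ[ℂ] B := T0 ∘ₗ E.symm.toLinearMap
  have hT : ∀ (μ : ℂ) (b : B), (b : K) ∈ (en δ).maxGenEigenspace μ → T b = φ μ • b := by
    intro μ b hb
    have h1 : E (DFinsupp.single μ ⟨b.1, b.2, hb⟩) = b := by
      show E0 _ = b
      simp only [E0, DFinsupp.lsum_single]
      rfl
    have h2 : E.symm b = DFinsupp.single μ ⟨b.1, b.2, hb⟩ := by
      rw [LinearEquiv.symm_apply_eq, h1]
    show T0 (E.symm b) = _
    rw [h2]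
    simp only [T0, DFinsupp.lsum_single]
    rfl
  -- induction over the pieces
  have ind : ∀ (P : B → Prop), (∀ (μ : ℂ) (b : B), (b : K) ∈ (en δ).maxGenEigenspace μ → P b) →
      P 0 → (∀ x y, P x → P y → P (x + y)) → ∀ b, P b := by
    intro P h1 h2 h3 b
    obtain ⟨w, rfl⟩ := hsurj b
    induction w using DFinsupp.induction with
    | h0 => rw [map_zero]; exact h2
    | ha μ x w _ _ ih =>
      rw [map_add]
      apply h3 _ _ ?_ ih
      have : E0 (DFinsupp.single μ x) = ⟨x.1, x.2.1⟩ := by
        simp only [E0, DFinsupp.lsum_single]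
        rfl
      rw [this]
      exact h1 μ _ x.2.2
  have hleib : ∀ a b : B, T (a * b) = a * T b + b * T a := by
    intro a
    refine ind (fun a => ∀ b, T (a * b) = a * T b + b * T a) ?_ ?_ ?_ a
    · intro μ a ha b
      refine ind (fun b => T (a * b) = a * T b + b * T a) ?_ ?_ ?_ b
      · intro ν b hb
        rw [hT (μ + ν) (a * b) (gen_mul_mem δ ha hb), hT μ a ha, hT ν b hb, map_add, add_smul,
          mul_smul_comm, mul_smul_comm, mul_comm b a, add_comm]
      · simp
      · intro x y hx hy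
        rw [mul_add, map_add, hx, hy, map_add]
        ring
    · intro b
      simp
    · intro x y hx hy b
      rw [add_mul, map_add, hx, hy, map_add]
      ring
  refine ⟨Derivation.mk' T ?_, fun μ b hb => hT μ b hb⟩
  intro a b
  rw [smul_eq_mul, smul_eq_mul]
  exact hleib a b

end Pool.Agent.Y407.IL
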